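import Pool.Agent.L7h31.CP.Stm

set_option autoImplicit false

namespace Pool.Agent.L7h46.CP

open Pool.Agent.L7h31.CP
open Pool.Agent.L7h31.CE (E hor ver Isohedral)

theorem hor_add {r : ℕ} (z w : E r) (a : Fin r) : hor (z + w) a = hor z a + hor w a := by
  simp [hor]

theorem ver_add {r : ℕ} (z w : E r) : ver (z + w) = ver z + ver w := by
  simp [ver]

theorem hor_sub {r : ℕ} (z w : E r) (a : Fin r) : hor (z - w) a = hor z a - hor w a := by
  simp [hor]

theorem ver_sub {r : ℕ} (z w : E r) : ver (z - w) = ver z - ver w := by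
  simp [ver]

theorem vz_neg {r : ℕ} {i : ℤ} {a : Fin r} (h : vz r i a = -1) : i / 2 = 0 := by
  unfold vz ww epsz at h
  split_ifs at h with h1 h2
  exact h2

theorem vz_nonneg {r : ℕ} {i : ℤ} (h : i / 2 ≠ 0) (a : Fin r) : 0 ≤ vz r i a := by
  unfold vz ww epsz
  rw [if_neg h]
  split_ifs <;> norm_num

theorem vz_zero {r : ℕ} (hr : 0 < r) {i : ℤ} (h : i / 2 = 0) : vz r i ⟨0, hr⟩ = -1 := by
  unfold vz ww epsz
  rw [h]
  simp

theorem vz_two {r : ℕ} (hr : 0 < r) : vz r (2 * r) ⟨0, hr⟩ = 1 := by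
  unfold vz ww epsz
  have h : (2 * (r : ℤ)) / 2 = r := by omega
  rw [h]
  simp [hr.ne']

theorem s_TRA (hM : S_MAP) : S_TRA := by
  intro r hr τ h
  have hr0 : 0 < r := by omega
  have key : ∀ i : ℤ, ∃ j : ℤ, ver τ = j - i ∧ (∀ a, vz r j a = vz r i a) ∧ ∀ a, ∃ m : ℤ, hor τ a = m := by
    intro i
    have h1 : (fun z => τ + z) '' tile i 0 ∈ tiles r := by
      rw [← h]
      exact ⟨_, ⟨i, 0, rfl⟩, rfl⟩
    obtain ⟨j, μ, h2⟩ := h1
    obtain ⟨h3, -, h4, h5⟩ := hM r i j 0 μ (fun z => τ + z) (Equiv.refl _) (fun _ => 1) (fun a => hor τ a) 1 (ver τ)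
      (fun _ => Or.inl rfl) (Or.inl rfl)
      (fun z => ⟨fun a => by simp only [Equiv.refl_apply, hor_add]; ring, by simp only [ver_add]; ring⟩) h2
    refine ⟨j, h3 rfl, fun a => ?_, fun a => h5 a⟩
    have := h4 a
    simp only [Equiv.refl_apply, one_mul] at this
    exact_mod_cast this
  obtain ⟨j0, e0, v0, m0⟩ := key 0
  obtain ⟨j1, e1, v1, -⟩ := key 1
  have hj : j1 = j0 + 1 := by
    have : (j1 : ℝ) = j0 + 1 := by
      rw [e0] at e1
      push_cast at e1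
      linarith
    exact_mod_cast this
  have q0 := vz_neg ((v0 ⟨0, hr0⟩).trans (vz_zero hr0 (by norm_num)))
  have q1 := vz_neg ((v1 ⟨0, hr0⟩).trans (vz_zero hr0 (by norm_num)))
  have hj0 : j0 = 0 := by omega
  refine ⟨?_, m0⟩
  rw [e0, hj0]
  norm_num

theorem tile_add {r : ℕ} (τ : E r) (h0 : ver τ = 0) (m : Fin r → ℤ) (hm : ∀ a, hor τ a = m a) (i : ℤ)
    (ν : Fin r → ℤ) : (fun z => τ + z) '' tile i ν = tile i (ν + m) := by
  ext w
  constructor
  · rintro ⟨z, ⟨h1, h2, h3⟩, rfl⟩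
    refine ⟨by simpa [ver_add, h0] using h1, by simpa [ver_add, h0] using h2, fun a => ?_⟩
    have e : lc i (τ + z) a = m a + lc i z a := by
      unfold lc
      rw [hor_add, ver_add, h0, hm]
      ring
    have := h3 a
    simp only [e, Pi.add_apply, Int.cast_add]
    constructor <;> linarith
  · rintro ⟨h1, h2, h3⟩
    refine ⟨w - τ, ⟨?_, ?_, fun a => ?_⟩, by simp⟩
    · rw [ver_sub, h0]; simpa using h1
    · rw [ver_sub, h0]; simpa using h2
    · have e : lc i (w - τ) a = lc i w a - m a := by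
        unfold lc
        rw [hor_sub, ver_sub, h0, hm]
        ring
      have := h3 a
      simp only [Pi.add_apply, Int.cast_add] at this
      rw [e]
      constructor <;> linarith

theorem s_PER : S_PER := by
  intro r τ h0 hh
  choose m hm using hh
  ext P
  constructor
  · rintro ⟨_, ⟨i, ν, rfl⟩, rfl⟩
    exact ⟨i, ν + m, tile_add τ h0 m hm i ν⟩
  · rintro ⟨i, ν, rfl⟩
    refine ⟨tile i (ν - m), ⟨i, _, rfl⟩, ?_⟩
    have := tile_add τ h0 m hm i (ν - m)
    simp only [sub_add_cancel] at this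
    exact this

theorem s_NON (hL : S_LIN) (hT : S_TRA) (hP : S_PER) (hM : S_MAP) : S_NON := by
  intro r hr hiso
  have hr0 : 0 < r := by omega
  obtain ⟨g, hp, hg0⟩ := hiso (tile 0 0) ⟨0, 0, rfl⟩ (tile 2 0) ⟨2, 0, rfl⟩
  obtain ⟨σ, s, b, δ, β, hs, hδ, hg⟩ := hL r (tiles r) (hT r hr) (hP r) g hp
  obtain ⟨b1, b2, -, -⟩ := hM r 0 2 0 0 g σ s b δ β hs hδ hg hg0
  have key : ∀ i : ℤ, ∃ j : ℤ, (δ = 1 → β = j - i) ∧ (δ = -1 → β = i + j + 1) ∧
      (∀ a, (vz r j (σ a) : ℝ) = δ * s a * (vz r i a : ℝ)) := by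
    intro i
    have h1 : g '' tile i 0 ∈ tiles r := by
      have h2 : g '' tile i 0 ∈ (fun A => g '' A) '' tiles r := ⟨_, ⟨i, 0, rfl⟩, rfl⟩
      rwa [hp] at h2
    obtain ⟨j, μ, h2⟩ := h1
    obtain ⟨h3, h4, h5, -⟩ := hM r i j 0 μ g σ s b δ β hs hδ hg h2
    exact ⟨j, h3, h4, h5⟩
  obtain ⟨j0, p0, p0', v0⟩ := key 0
  obtain ⟨jr, pr, pr', vr⟩ := key (2 * r)
  have w0 := v0 ⟨0, hr0⟩
  have wr := vr ⟨0, hr0⟩
  rw [vz_zero hr0 (by norm_num)] at w0
  rw [vz_two hr0] at wr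
  rcases hδ with h1 | h1
  · have hj0 : j0 = 2 := by
      have e1 := p0 h1
      have e2 := b1 h1
      have : (j0 : ℝ) = 2 := by
        push_cast at e1 e2
        linarith
      exact_mod_cast this
    have hjr : jr = 2 * r + 2 := by
      have e1 := pr h1
      have e2 := b1 h1
      have : (jr : ℝ) = 2 * r + 2 := by
        push_cast at e1 e2
        linarith
      exact_mod_cast this
    subst hj0
    subst hjr
    have n0 : (0 : ℝ) ≤ (vz r 2 (σ ⟨0, hr0⟩) : ℝ) := by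
      exact_mod_cast vz_nonneg (by norm_num) _
    have nr : (0 : ℝ) ≤ (vz r (2 * r + 2) (σ ⟨0, hr0⟩) : ℝ) := by
      exact_mod_cast vz_nonneg (by omega) _
    rw [w0, h1] at n0
    rw [wr, h1] at nr
    rcases hs ⟨0, hr0⟩ with hs1 | hs1
    · rw [hs1] at n0
      norm_num at n0
    · rw [hs1] at nr
      norm_num at nr
  · have hj0 : j0 = 2 := by
      have e1 := p0' h1
      have e2 := b2 h1
      have : (j0 : ℝ) = 2 := by
        push_cast at e1 e2
        linarith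
      exact_mod_cast this
    have hjr : jr = 2 - 2 * r := by
      have e1 := pr' h1
      have e2 := b2 h1
      have : (jr : ℝ) = 2 - 2 * r := by
        push_cast at e1 e2
        linarith
      exact_mod_cast this
    subst hj0
    subst hjr
    have n0 : (0 : ℝ) ≤ (vz r 2 (σ ⟨0, hr0⟩) : ℝ) := by
      exact_mod_cast vz_nonneg (by norm_num) _
    have nr' : (0 : ℤ) ≤ vz r (2 - 2 * (r : ℤ)) (σ ⟨0, hr0⟩) := vz_nonneg (by omega) _
    have nr : (0 : ℝ) ≤ (vz r (2 - 2 * r) (σ ⟨0, hr0⟩) : ℝ) := Int.cast_nonneg nr'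
    rw [w0, h1] at n0
    rw [wr, h1] at nr
    rcases hs ⟨0, hr0⟩ with hs1 | hs1
    · rw [hs1] at nr
      norm_num at nr
    · rw [hs1] at n0
      norm_num at n0

end Pool.Agent.L7h46.CP
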